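import Pool.Agent.BEP.Stmts

/-! Row ARI of squad BEP. -/

set_option autoImplicit false

namespace Pool.Agent.BEP.H64

open Set

theorem ari : AriStmt := by
  intro A B l1 m1 hA hB
  refine ⟨⋃ n : ℕ, ⋃ a ∈ A, ⋃ b ∈ B, {R : ℝ | 0 < R ∧ (n : ℝ) ^ 2 * l1 ≠ a ∧
    (n : ℝ) ^ 2 * (l1 / R ^ 2 + m1) = a / R ^ 2 + b}, ?_, ?_⟩
  · refine countable_iUnion fun n => hA.biUnion fun a _ => hB.biUnion fun b _ => ?_
    refine Set.Subsingleton.countable ?_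
    rintro R ⟨hR, hne, h1⟩ S ⟨hS, -, h2⟩
    have e1 : (n : ℝ) ^ 2 * l1 - a = (b - (n : ℝ) ^ 2 * m1) * R ^ 2 := by
      field_simp at h1
      linarith
    have e2 : (n : ℝ) ^ 2 * l1 - a = (b - (n : ℝ) ^ 2 * m1) * S ^ 2 := by
      field_simp at h2
      linarith
    have hb : b - (n : ℝ) ^ 2 * m1 ≠ 0 := by
      intro h0
      rw [h0, zero_mul, sub_eq_zero] at e1
      exact hne e1
    have e3 : R ^ 2 = S ^ 2 := mul_left_cancel₀ hb (e1.symm.trans e2)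
    exact (sq_eq_sq₀ hR.le hS.le).1 e3
  · intro R hR hC n a ha b hb h
    by_contra hne
    apply hC
    refine mem_iUnion.2 ⟨n, mem_iUnion₂.2 ⟨a, ha, mem_iUnion₂.2 ⟨b, hb, hR, hne, h⟩⟩⟩

end Pool.Agent.BEP.H64
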