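import Pool.Agent.BEP.Stmts

/-! Row CNS of squad BEP. -/

set_option autoImplicit false

namespace Pool.Agent.BEP.H64

open Set MeasureTheory
open scoped InnerProductSpace
open Pool.Agent.BE01 Pool.Agent.BEG

theorem cns (ort : OrtStmt) (bas : BasStmt) : CnsStmt := by
  intro d Ω G hd hΩ
  obtain ⟨b, om, hb⟩ := bas d Ω hd hΩ
  refine ⟨(countable_range om).mono ?_, om 0, b 0, ?_, ?_, hb 0⟩
  · rintro l ⟨u, -, hu, hE⟩
    by_contra hl
    apply hu
    have h0 : ∀ k, ⟪b k, u⟫_ℝ = 0 := fun k => ort d Ω (om k) l (b k) u hΩ (hb k) hE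
      fun h => hl ⟨k, h⟩
    have h1 : b.repr u = b.repr 0 := by
      ext k
      rw [b.repr_apply_apply, h0 k, map_zero]
      rfl
    exact b.repr.injective h1
  · rintro g ⟨hg, -⟩
    exact absurd hg (notMem_empty _)
  · have := b.orthonormal.norm_eq_one 0
    intro h0
    rw [h0, norm_zero] at this
    exact zero_ne_one this

end Pool.Agent.BEP.H64
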