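import Pool.Agent.BEP.Stmts

/-!
# Squad BEP (MP_be01ff_an), row PFI: the coefficients of an invariant function in the product
-/

set_option autoImplicit false

namespace Pool.Agent.BEP.H64

open Set Filter Topology MeasureTheory
open scoped InnerProductSpace ENNReal
open Pool.Agent Pool.Agent.BE01 Pool.Agent.BEG Pool.Agent.BEH Pool.Agent.BEP

noncomputable section

theorem fin_mu {d : ℕ} {Ω : Set (En d)} (h : Dom Ω) : IsFiniteMeasure (mu Ω) := by
  refine ⟨?_⟩
  show volume.restrict Ω univ < ∞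
  rw [Measure.restrict_apply_univ]
  exact h.2.1.measure_lt_top

theorem inner_L2 {X : Type*} [MeasurableSpace X] {μ : Measure X} (f g : Lp ℝ 2 μ) :
    ⟪f, g⟫_ℝ = ∫ x, f x * g x ∂μ := by
  rw [L2.inner_def]
  refine integral_congr_ae (Eventually.of_forall fun x => ?_)
  show ⟪f x, g x⟫_ℝ = f x * g x
  rw [real_inner_eq_re_inner, RCLike.inner_apply]
  simp [mul_comm]

theorem norm_sq_L2 {X : Type*} [MeasurableSpace X] {μ : Measure X} (f : Lp ℝ 2 μ) :
    ‖f‖ ^ 2 = ∫ x, f x ^ 2 ∂μ := by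
  rw [← real_inner_self_eq_norm_sq, inner_L2]
  refine integral_congr_ae (Eventually.of_forall fun x => ?_)
  show f x * f x = f x ^ 2
  ring

theorem pfi (pmp : PmpStmt) (mgp : MgpStmt) : PfiStmt := by
  intro d m Ω1 Ω2 G b u h1 h2 hG hu
  have := fin_mu h1
  have := fin_mu h2
  obtain ⟨e, he, hes, -, -, hmp, hdom⟩ := pmp d m
  have hmp' := hmp Ω1 Ω2 h1.1.measurableSet h2.1.measurableSet
  have hsm : MeasurePreserving e.symm ((mu Ω1).prod (mu Ω2)) (mu (Pr Ω1 Ω2)) := hmp'.symm e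
  have := fin_mu (hdom Ω1 Ω2 h1 h2)
  set U : En d × En m → ℝ := fun q => u (e.symm q) with hU
  have hUL : MemLp U 2 ((mu Ω1).prod (mu Ω2)) := (Lp.memLp u).comp_measurePreserving hsm
  have hU2 : Integrable (fun q => U q ^ 2) ((mu Ω1).prod (mu Ω2)) :=
    (memLp_two_iff_integrable_sq hUL.1).1 hUL
  set W : ℕ → En d → ℝ := fun k y => ∫ z, U (y, z) * b k z ∂(mu Ω2) with hW
  -- almost all sections are square integrable
  have hsec : ∀ᵐ y ∂(mu Ω1), MemLp (fun z => U (y, z)) 2 (mu Ω2) := by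
    filter_upwards [hU2.prod_right_ae, hUL.1.prodMk_left] with y hy1 hy2
    exact (memLp_two_iff_integrable_sq hy2).2 hy1
  have hcoef : ∀ y (hy : MemLp (fun z => U (y, z)) 2 (mu Ω2)) (k : ℕ),
      W k y = ⟪b k, hy.toLp _⟫_ℝ := by
    intro y hy k
    rw [inner_L2]
    refine integral_congr_ae ?_
    filter_upwards [hy.coeFn_toLp] with z hz
    rw [hz, mul_comm]
  have hWm : ∀ k, AEStronglyMeasurable (W k) (mu Ω1) := by
    intro k
    have hb : AEStronglyMeasurable (fun q : En d × En m => b k q.2) ((mu Ω1).prod (mu Ω2)) :=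
      (Lp.aestronglyMeasurable (b k)).comp_snd
    exact (hUL.1.mul hb).integral_prod_right'
  have hWL : ∀ k, MemLp (W k) 2 (mu Ω1) := by
    intro k
    rw [memLp_two_iff_integrable_sq (hWm k)]
    refine Integrable.mono' hU2.integral_prod_left ((hWm k).pow 2) ?_
    filter_upwards [hsec] with y hy
    rw [Real.norm_eq_abs, abs_of_nonneg (sq_nonneg _), hcoef y hy k]
    have h3 : |⟪b k, hy.toLp _⟫_ℝ| ≤ ‖hy.toLp (fun z => U (y, z))‖ := by
      refine (abs_real_inner_le_norm _ _).trans ?_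
      rw [b.orthonormal.1 k, one_mul]
    have h4 : ⟪b k, hy.toLp _⟫_ℝ ^ 2 ≤ ‖hy.toLp (fun z => U (y, z))‖ ^ 2 :=
      sq_le_sq.2 (by rwa [abs_norm])
    refine h4.trans (le_of_eq ?_)
    rw [norm_sq_L2]
    refine integral_congr_ae ?_
    filter_upwards [hy.coeFn_toLp] with z hz
    rw [hz]
  have hac := fun k => (hWL k).coeFn_toLp
  refine ⟨fun k => (hWL k).toLp (W k), fun k => ?_, fun k η v hv => ?_, fun h0 => ?_⟩
  · -- invariance
    rintro ⟨A, c⟩ ⟨hA, hc⟩
    simp only at hA hc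
    subst hc
    have hinv := hu (ex m A, 0) ⟨⟨A, hA, rfl⟩, rfl⟩
    have hmv := (mgp d Ω1 (A, 0) h1.1 (hG (A, 0) ⟨hA, rfl⟩)).1
    have h3 : ∀ᵐ q ∂((mu Ω1).prod (mu Ω2)), U (mv (A, 0) q.1, q.2) = U q := by
      have h4 := hsm.quasiMeasurePreserving.ae hinv
      filter_upwards [h4] with q hq
      show u (e.symm (mv (A, 0) q.1, q.2)) = u (e.symm q)
      rw [← hq, hes, hes]
      show u (jn (A q.1 + 0) q.2) = u (ex m A (jn q.1 q.2) + 0)
      rw [ex_apply, fs_jn, sn_jn, add_zero, add_zero]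
    have h5 := Measure.ae_ae_of_ae_prod h3
    have h6 : ∀ᵐ y ∂(mu Ω1), (hWL k).toLp (W k) (mv (A, 0) y) = W k (mv (A, 0) y) :=
      hmv.quasiMeasurePreserving.ae (hac k)
    filter_upwards [h5, h6, hac k] with y hy5 hy6 hy7
    rw [hy6, hy7]
    refine integral_congr_ae ?_
    filter_upwards [hy5] with z hz
    show U (mv (A, 0) y, z) * b k z = U (y, z) * b k z
    rw [hz]
  · -- scalar products
    have hVL : MemLp (fun q => v (e.symm q)) 2 ((mu Ω1).prod (mu Ω2)) :=
      (Lp.memLp v).comp_measurePreserving hsm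
    have hV : ∀ᵐ q ∂((mu Ω1).prod (mu Ω2)), v (e.symm q) = η q.1 * b k q.2 := by
      have h4 := hsm.quasiMeasurePreserving.ae hv
      filter_upwards [h4] with q hq
      rw [hq, hes, fs_jn, sn_jn]
    have hi : Integrable (fun q => U q * v (e.symm q)) ((mu Ω1).prod (mu Ω2)) :=
      hUL.integrable_mul hVL
    have hi2 : Integrable (fun q : En d × En m => U q * (η q.1 * b k q.2))
        ((mu Ω1).prod (mu Ω2)) := by
      refine hi.congr ?_
      filter_upwards [hV] with q hq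
      rw [hq]
    have h5 : ⟪u, v⟫_ℝ = ∫ q, U q * v (e.symm q) ∂((mu Ω1).prod (mu Ω2)) := by
      rw [inner_L2]
      exact (hsm.integral_comp' (fun x => u x * v x)).symm
    have h6 : ∫ q, U q * v (e.symm q) ∂((mu Ω1).prod (mu Ω2)) =
        ∫ q, U q * (η q.1 * b k q.2) ∂((mu Ω1).prod (mu Ω2)) := by
      refine integral_congr_ae ?_
      filter_upwards [hV] with q hq
      rw [hq]
    rw [h5, h6, integral_prod _ hi2, inner_L2]
    refine integral_congr_ae ?_
    filter_upwards [hac k] with y hy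
    show (hWL k).toLp (W k) y * η y = ∫ z, U (y, z) * (η y * b k z) ∂(mu Ω2)
    rw [hy, mul_comm]
    show η y * ∫ z, U (y, z) * b k z ∂(mu Ω2) = _
    rw [← integral_const_mul]
    refine integral_congr_ae (Eventually.of_forall fun z => ?_)
    show η y * (U (y, z) * b k z) = U (y, z) * (η y * b k z)
    ring
  · -- completeness
    have h3 : ∀ᵐ y ∂(mu Ω1), ∀ k, W k y = 0 := by
      rw [ae_all_iff]
      intro k
      have h4 := hac k
      have h00 : (hWL k).toLp (W k) = 0 := h0 k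
      rw [h00] at h4
      filter_upwards [h4, Lp.coeFn_zero ℝ 2 (mu Ω1)] with y hy hy0
      rw [← hy, hy0]
      rfl
    have h4 : ∀ᵐ y ∂(mu Ω1), ∫ z, U (y, z) ^ 2 ∂(mu Ω2) = 0 := by
      filter_upwards [h3, hsec] with y hy3 hy
      have h5 : hy.toLp (fun z => U (y, z)) = 0 := by
        have h7 : b.repr (hy.toLp (fun z => U (y, z))) = 0 := by
          ext k
          rw [b.repr_apply_apply, ← hcoef y hy k, hy3 k]
          rfl
        exact (LinearIsometryEquiv.map_eq_zero_iff b.repr).1 h7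
      have h6 : ∫ z, U (y, z) ^ 2 ∂(mu Ω2) = ‖hy.toLp (fun z => U (y, z))‖ ^ 2 := by
        rw [norm_sq_L2]
        refine integral_congr_ae ?_
        filter_upwards [hy.coeFn_toLp] with z hz
        rw [hz]
      rw [h6, h5, norm_zero]
      ring
    have h8 : ‖u‖ ^ 2 = 0 := by
      have h9 : ‖u‖ ^ 2 = ∫ q, U q ^ 2 ∂((mu Ω1).prod (mu Ω2)) := by
        rw [norm_sq_L2]
        exact (hsm.integral_comp' (fun x => u x ^ 2)).symm
      rw [h9, integral_prod _ hU2, integral_congr_ae h4]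
      simp
    exact norm_eq_zero.1 (pow_eq_zero_iff two_ne_zero |>.1 h8)

end

end Pool.Agent.BEP.H64
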