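import Pool.Agent.Helper64_BEP.AllR
import Pool.Agent.Helper53_BEL.Fin
import Pool.Agent.Helper93_BEO.Fin
import Pool.Agent.Helper21_BEP.PMP
import Pool.Agent.Helper1_BEP.PTT
import Pool.Agent.Helper52_BEP.PHH
import Pool.Agent.Helper5_BEP.PEE
import Pool.Agent.Helper4_BEP.PEV
import Pool.Agent.Helper58_BEP.SYP
import Pool.Agent.Helper19_BEP.ORT
import Pool.Agent.Helper29_BEP.BAS
import Pool.Agent.Helper64_BEP.CNS
import Pool.Agent.Helper75_BEP.CPK
import Pool.Agent.Helper64_BEP.SPP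
import Pool.Agent.Helper29_BEP.SPC
import Pool.Agent.Helper64_BEP.ARI
import Pool.Agent.Helper26_BEP.CYL
import Pool.Agent.Helper43_BEP.CYR
import Pool.Agent.Helper19_BEP.BLP
import Pool.Agent.Helper46_BEP.SHP
import Pool.Agent.Helper69_BEP.BLT
import Pool.Agent.Helper65_BEP.CYB
import Pool.Agent.Helper86_BEP.SCE
import Pool.Agent.Helper64_BEP.PFI

/-!
# Squad BEP (MP_be01ff_an): all rows together.
-/

set_option autoImplicit false

namespace Pool.Agent.BEP.AllP

open Pool.Agent.BEP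

theorem pmp : PmpStmt := H21.pmp
theorem ptt : PttStmt := H1.ptt
theorem phh : PhhStmt := H52.phh pmp ptt
theorem pee : PeeStmt := H5.pee pmp ptt phh
theorem pev : PevStmt := H4.pev pmp pee Pool.Agent.BEG.All.mgp
theorem syp : SypStmt := H58.syp
theorem ort : OrtStmt := H19.ort Pool.Agent.BEO.H19.weo
theorem bas : BasStmt := H29.bas Pool.Agent.BEL.H53.empA Pool.Agent.BEL.H53.eigA
theorem cns : CnsStmt := H64.cns ort bas
theorem cpk : CpkStmt := H75.cpk Pool.Agent.BEG.All.wxc Pool.Agent.BEG.All.ksy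
theorem sce : SceStmt := H86.sce
theorem pfi : PfiStmt := H64.pfi pmp Pool.Agent.BEG.All.mgp
theorem spp : SppStmt := H64.spp pmp pev ort bas cpk pfi
theorem ari : AriStmt := H64.ari
theorem cyl : CylStmt := H26.cyl spp cns sce (H29.spc sce) ari
theorem cyr : CyrStmt :=
  H43.cyr pmp syp sce (H29.spc sce) cyl AllR.frg
theorem blp : BlpStmt :=
  H19.blp Pool.Agent.BEG.All.ksy AllR.yas AllR.nra AllR.gpa AllR.jsd AllR.syb AllR.spb AllR.ine
theorem shp : ShpStmt :=
  H46.shp Pool.Agent.BEG.All.ksy AllR.yas AllR.nra AllR.gpa AllR.syb AllR.ine AllR.sph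
theorem blt : BltStmt := H69.blt Pool.Agent.BEO.Fin.bao
theorem cyb : CybStmt :=
  H65.cyb cyr blp blt shp AllR.syb

end Pool.Agent.BEP.AllP
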