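import Pool.Agent.Helper64_BEG.All
import Pool.Agent.Helper63_BER.LPM
import Pool.Agent.Helper27_BER.LPD
import Pool.Agent.Helper40_BER.LPC
import Pool.Agent.Helper52_BER.LPB
import Pool.Agent.Helper4_BER.FRP
import Pool.Agent.Helper5_BER.TLM
import Pool.Agent.Helper17_BER.SLV
import Pool.Agent.Helper15_BER.ODP
import Pool.Agent.Helper58_BER.RSV
import Pool.Agent.Helper35_BER.FST
import Pool.Agent.Helper70_BER.STN
import Pool.Agent.Helper19_BER.TMR
import Pool.Agent.Helper11_BER.FAM
import Pool.Agent.Helper94_BER.CRI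
import Pool.Agent.Helper23_BER.MAR
import Pool.Agent.Helper39_BER.FRK
import Pool.Agent.Helper17_BER.FRG
import Pool.Agent.Helper27_BER.YAS
import Pool.Agent.Helper34_BER.GPA
import Pool.Agent.Helper75_BER.JSD
import Pool.Agent.Helper29_BER.LOD
import Pool.Agent.Helper19_BER.LOB
import Pool.Agent.Helper19_BER.HSD
import Pool.Agent.Helper3_BER.SYB
import Pool.Agent.Helper95_BER.IRR
import Pool.Agent.Helper28_BER.RDD
import Pool.Agent.Helper16_BER.SPB
import Pool.Agent.Helper98_BER.ICE
import Pool.Agent.Helper30_BER.INE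
import Pool.Agent.Helper77_BER.NRA
import Pool.Agent.Helper47_BER.BLB
import Pool.Agent.Helper29_BER.RWD
import Pool.Agent.Helper88_BER.RHD
import Pool.Agent.Helper15_BER.SPH
import Pool.Agent.Helper62_BES.GCF
import Pool.Agent.Helper42_BER.PER
import Pool.Agent.Helper76_BER.OKD
import Pool.Agent.Helper12_BER.SHB
import Pool.Agent.Helper93_BEO.Fin

/-!
# Squad BER (MP_be01ff_an): all rows together (with the rows PER, NRA, OKD as hypotheses).
-/

set_option autoImplicit false

namespace Pool.Agent.BEP.AllR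

open Pool.Agent.BER

theorem lpm : LpmStmt := H63.lpm
theorem lpd : LpdStmt := H27.lpd
theorem lpc : LpcStmt := H40.lpc
theorem lpb : LpbStmt := H52.lpb
theorem frp : FrpStmt := H4.frp
theorem tlm : TlmStmt := H5.tlm
theorem slv : SlvStmt := H17.slv frp
theorem odp : OdpStmt := H15.odp
theorem rsv : RsvStmt := H58.rsv frp tlm slv odp
theorem per : PerStmt := H42.per lpm lpd
theorem fst : FstStmt := H35.fst lpm lpd tlm slv per
theorem stn : StnStmt := H70.stn lpm lpd rsv per
theorem tmr : TmrStmt := H19.tmr lpm lpd lpc lpb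
theorem fam : FamStmt := H11.fam Pool.Agent.BEG.All.slk
theorem cri : CriStmt := H94.cri
theorem mar : MarStmt := H23.mar fst stn tmr Pool.Agent.BEG.Ben.tmn
  Pool.Agent.BEG.Ben.jst Pool.Agent.BEG.Ben.sol Pool.Agent.BEG.Ben.fne Pool.Agent.BEG.All.txk

/-- Theorem F_R in a subspace. -/
theorem frk : FrkStmt :=
  H39.frk Pool.Agent.BEG.All.wxc Pool.Agent.BEG.All.sbk fam cri mar

/-- Theorem F_R with symmetries. -/
theorem frg : FrgStmt := H17.frg Pool.Agent.BEG.All.ksy frk

theorem yas : YasStmt := H27.yas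
theorem gpa : GpaStmt := H34.gpa
theorem jsd : JsdStmt := H75.jsd
theorem lod : LodStmt := H29.lod
theorem lob : LobStmt := H19.lob lod
theorem hsd : HsdStmt := H19.hsd
theorem syb : SybStmt := H3.syb Pool.Agent.BEG.All.mgp
theorem irr : IrrStmt := H95.irr
theorem rdd : RddStmt := H28.rdd irr
theorem spb : SpbStmt := H16.spb jsd syb rdd
theorem ice : IceStmt := H98.ice
theorem ine : IneStmt := H30.ine Pool.Agent.BEG.All.wxc ice
theorem nra : NraStmt := H77.nra
theorem blb : BlbStmt :=
  H47.blb Pool.Agent.BEG.All.ksy frg yas nra gpa jsd syb spb ine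
theorem rwd : RwdStmt := H29.rwd
theorem rhd : RhdStmt := H88.rhd Pool.Agent.BES.H62.gcf
theorem okd : OkdStmt := H76.okd syb rwd rhd Pool.Agent.BEO.H19.weo
theorem sph : SphStmt := H15.sph lob hsd syb rdd okd
theorem shb : ShbStmt :=
  H12.shb Pool.Agent.BEG.All.ksy frg yas nra gpa syb ine sph

end Pool.Agent.BEP.AllR
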