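import Pool.Agent.BEP.Stmts
import Pool.Agent.Helper64_BEG.Fun2

/-!
# Squad BEP (MP_be01ff_an): cylinders, formulated with functions
-/

set_option autoImplicit false

namespace Pool.Agent.BEP.Fun

open Pool.Agent Pool.Agent.BEP
open Set Filter Topology MeasureTheory
open scoped InnerProductSpace ENNReal

noncomputable section

/-- The cylinder over `O` with the ball of radius `R` of `ℝ^d`: the first `d` coordinates are in the
ball, the last `m` coordinates are in `O`. -/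
def Cyl (d m : ℕ) (R : ℝ) (O : Set (BE01F.E m)) : Set (BE01F.E (d + m)) :=
  {x | ∑ i : Fin d, x (Fin.castAdd m i) ^ 2 < R ^ 2 ∧
    (WithLp.toLp 2 fun j : Fin m => x (Fin.natAdd d j)) ∈ O}

/-- The same with a shell of `ℝ^d`. -/
def CylS (d m : ℕ) (r s : ℝ) (O : Set (BE01F.E m)) : Set (BE01F.E (d + m)) :=
  {x | r ^ 2 < ∑ i : Fin d, x (Fin.castAdd m i) ^ 2 ∧
    ∑ i : Fin d, x (Fin.castAdd m i) ^ 2 < s ^ 2 ∧
    (WithLp.toLp 2 fun j : Fin m => x (Fin.natAdd d j)) ∈ O}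

theorem norm_fs {d m : ℕ} (x : BE01F.E (d + m)) :
    ‖fs (d := d) (m := m) x‖ ^ 2 = ∑ i : Fin d, x (Fin.castAdd m i) ^ 2 := by
  rw [EuclideanSpace.norm_sq_eq]
  refine Finset.sum_congr rfl fun i _ => ?_
  rw [Real.norm_eq_abs, sq_abs]
  rfl

theorem cyl_eq {d m : ℕ} {R : ℝ} (hR : 0 < R) (O : Set (BE01F.E m)) :
    Cyl d m R O = Pr (Metric.ball (0 : BE01F.E d) R) O := by
  ext x
  show (∑ i : Fin d, x (Fin.castAdd m i) ^ 2 < R ^ 2 ∧ sn (d := d) (m := m) x ∈ O) ↔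
    (fs (d := d) (m := m) x ∈ Metric.ball (0 : BE01F.E d) R ∧ sn (d := d) (m := m) x ∈ O)
  rw [mem_ball_zero_iff, ← norm_fs, sq_lt_sq₀ (norm_nonneg _) hR.le]

theorem cylS_eq {d m : ℕ} {r s : ℝ} (hr : 0 < r) (hs : 0 < s) (O : Set (BE01F.E m)) :
    CylS d m r s O = Pr {y : BE01F.E d | r < ‖y‖ ∧ ‖y‖ < s} O := by
  ext x
  show (r ^ 2 < ∑ i : Fin d, x (Fin.castAdd m i) ^ 2 ∧
      ∑ i : Fin d, x (Fin.castAdd m i) ^ 2 < s ^ 2 ∧ sn (d := d) (m := m) x ∈ O) ↔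
    ((r < ‖fs (d := d) (m := m) x‖ ∧ ‖fs (d := d) (m := m) x‖ < s) ∧
      sn (d := d) (m := m) x ∈ O)
  rw [← norm_fs, sq_lt_sq₀ (norm_nonneg _) hs.le, sq_lt_sq₀ hr.le (norm_nonneg _), and_assoc]

/-- Cylinders over balls: `O` any bounded open nonempty set of `ℝ^m`. -/
theorem cyl_ball (cyb : CybStmt) (d m : ℕ) (hd : 2 ≤ d) (hm : 1 ≤ m) (O : Set (BE01F.E m))
    (hO : IsOpen O) (hb : Bornology.IsBounded O) (hne : O.Nonempty) :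
    ∃ C : Set ℝ, C.Countable ∧ ∀ (R a : ℝ) (p : ℕ), 0 < R → R ∉ C → 0 < a → 1 ≤ p →
      BE01F.SharpRate (Cyl d m R O) a ((2 * p : ℕ) : ℝ) := by
  obtain ⟨⟨C, hC, h⟩, -⟩ := cyb d m O hd hm ⟨hO, hb, hne⟩
  refine ⟨C, hC, fun R a p hR hRC ha hp => ?_⟩
  rw [cyl_eq hR]
  exact Helper70BE01Conv.sharp_of (h R a p hR hRC ha hp)

/-- Cylinders over shells. -/
theorem cyl_shell (cyb : CybStmt) (d m : ℕ) (hd : 2 ≤ d) (hd3 : d ≠ 3) (hm : 1 ≤ m)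
    (O : Set (BE01F.E m)) (hO : IsOpen O) (hb : Bornology.IsBounded O) (hne : O.Nonempty)
    (r s : ℝ) (hr : 0 < r) (hs : r < s) :
    ∃ C : Set ℝ, C.Countable ∧ ∀ (R a : ℝ) (p : ℕ), 0 < R → R ∉ C → 0 < a → 1 ≤ p →
      BE01F.SharpRate (CylS d m (R * r) (R * s) O) a ((2 * p : ℕ) : ℝ) := by
  obtain ⟨-, h⟩ := cyb d m O hd hm ⟨hO, hb, hne⟩
  obtain ⟨C, hC, h'⟩ := h hd3 r s hr hs
  refine ⟨C, hC, fun R a p hR hRC ha hp => ?_⟩
  rw [cylS_eq (mul_pos hR hr) (mul_pos hR (hr.trans hs))]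
  exact Helper70BE01Conv.sharp_of (h' R a p hR hRC ha hp)

end

end Pool.Agent.BEP.Fun
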