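import Pool.Agent.Helper64_BEP.FunP
import Pool.Agent.Helper64_BEP.AllP

/-!
# Squad BEP (MP_be01ff_an): cylinders, formulated with functions, unconditional
-/

set_option autoImplicit false

namespace Pool.Agent.BEP.FunQ

open Pool.Agent Pool.Agent.BEP Pool.Agent.BEP.Fun
open Set Filter Topology MeasureTheory
open scoped InnerProductSpace ENNReal

/-- Cylinders over balls: `O` any bounded open nonempty set of `ℝ^m`. -/
theorem cyl_ball (d m : ℕ) (hd : 2 ≤ d) (hm : 1 ≤ m) (O : Set (BE01F.E m))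
    (hO : IsOpen O) (hb : Bornology.IsBounded O) (hne : O.Nonempty) :
    ∃ C : Set ℝ, C.Countable ∧ ∀ (R a : ℝ) (p : ℕ), 0 < R → R ∉ C → 0 < a → 1 ≤ p →
      BE01F.SharpRate (Cyl d m R O) a ((2 * p : ℕ) : ℝ) :=
  Fun.cyl_ball AllP.cyb d m hd hm O hO hb hne

/-- Cylinders over shells. -/
theorem cyl_shell (d m : ℕ) (hd : 2 ≤ d) (hd3 : d ≠ 3) (hm : 1 ≤ m)
    (O : Set (BE01F.E m)) (hO : IsOpen O) (hb : Bornology.IsBounded O) (hne : O.Nonempty)
    (r s : ℝ) (hr : 0 < r) (hs : r < s) :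
    ∃ C : Set ℝ, C.Countable ∧ ∀ (R a : ℝ) (p : ℕ), 0 < R → R ∉ C → 0 < a → 1 ≤ p →
      BE01F.SharpRate (CylS d m (R * r) (R * s) O) a ((2 * p : ℕ) : ℝ) :=
  Fun.cyl_shell AllP.cyb d m hd hd3 hm O hO hb hne r s hr hs

end Pool.Agent.BEP.FunQ
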