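import Pool.Agent.BEP.Stmts

/-! Row SPP of squad BEP. -/

set_option autoImplicit false

namespace Pool.Agent.BEP.H64

open Set MeasureTheory
open scoped InnerProductSpace
open Pool.Agent.BE01 Pool.Agent.BEG

theorem spp (pmp : PmpStmt) (pev : PevStmt) (ort : OrtStmt) (bas : BasStmt) (cpk : CpkStmt)
    (pfi : PfiStmt) : SppStmt := by
  intro d m Ω1 Ω2 G hd hm h1 h2 hG
  have hinv : ∀ u : Lp ℝ 2 (mu Ω2), Inv Ω2 (li ∅) u := by
    rintro u g ⟨hg, -⟩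
    exact absurd hg (notMem_empty _)
  refine ⟨?_, ?_⟩
  · rintro l1 ⟨u, hui, hu, hu1⟩ l2 ⟨v, -, hv, hv1⟩
    obtain ⟨w, -, hE, hne, hI⟩ := pev d m Ω1 Ω2 l1 l2 u v h1 h2 hu1 hv1
    exact ⟨w, hI G hG hui, hne hu hv, hE⟩
  · rintro l ⟨u, hui, hu, hE⟩
    by_contra hcon
    obtain ⟨-, -, -, -, -, hdom⟩ := (pmp d m).choose_spec
    have hD : Dom (Pr Ω1 Ω2) := hdom Ω1 Ω2 h1 h2
    obtain ⟨b, om, hb⟩ := bas m Ω2 hm h2
    have hb0 : ∀ k, b k ≠ 0 := by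
      intro k h0
      have := b.orthonormal.norm_eq_one k
      rw [h0, norm_zero] at this
      exact zero_ne_one this
    obtain ⟨w, hwI, hw, hw0⟩ := pfi d m Ω1 Ω2 G b u h1 h2 hG hui
    apply hu
    refine hw0 fun k => cpk d Ω1 G (w k) hd h1 hG (hwI k) fun l' η hη hηE => ?_
    by_cases hη0 : η = 0
    · rw [hη0, inner_zero_right]
    obtain ⟨v, hv, hvE, -, -⟩ := pev d m Ω1 Ω2 l' (om k) η (b k) h1 h2 hηE (hb k)
    rw [hw k η v hv]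
    refine ort (d + m) (Pr Ω1 Ω2) l (l' + om k) u v hD hE hvE fun h => hcon ?_
    exact ⟨l', ⟨η, hη, hη0, hηE⟩, om k, ⟨b k, hinv _, hb0 k, hb k⟩, h⟩

end Pool.Agent.BEP.H64
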